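import Pool.Agent.V11225.GI.Final

/-!
# An isomorphism game algebra which does not embed into any full group C*-algebra

`IsIsoAlg G H p` says that the C*-algebra `A`, with the generators `p (g, h)`, is the isomorphism
game algebra `A(G, H)`; `IsGroupAlg u` says that the C*-algebra `C`, with the map `u : Γ → C`, is
the full C*-algebra of the group `Γ`; `SolGroup M b` is the solution group of the linear system
`M x = b` over the field with two elements. The two graphs are those of the magic square (24
vertices each).
-/

namespace Pool.Agent.Results.MP_3b70de_al.NoUnitalHom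

open Pool.Agent.V11225.GI

/-- **The answer to Q1 is no: there are finite graphs `G`, `H` with `A(G, H) ≠ 0` such that there
is no unital *-homomorphism from `A(G, H)` to the full C*-algebra of any group; in particular
`A(G, H)` does not embed into `C*(Γ(M, b))` for any binary linear system.** The first two parts
say that the universal C*-algebras exist. -/
theorem result :
    (∀ (V W : Type) [Fintype V] [Fintype W] (G : SimpleGraph V) (H : SimpleGraph W),
      ∃ (A : Type 1) (_ : CStarAlgebra A) (p : V × W → A), IsIsoAlg G H p) ∧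
    (∀ (Γ : Type) [Group Γ], ∃ (C : Type 1) (_ : CStarAlgebra C) (u : Γ → C), IsGroupAlg u) ∧
    ∃ (V W : Type) (_ : Fintype V) (_ : Fintype W) (G : SimpleGraph V) (H : SimpleGraph W),
      ∀ (A : Type 1) [CStarAlgebra A] (p : V × W → A), IsIsoAlg G H p →
        Nontrivial A ∧
        (∀ (Γ : Type) [Group Γ] (C : Type 1) [CStarAlgebra C] (u : Γ → C), IsGroupAlg u →
          IsEmpty (A →⋆ₐ[ℂ] C)) ∧
        ∀ (m n : ℕ) (M : Matrix (Fin m) (Fin n) (ZMod 2)) (b : Fin m → ZMod 2)
          (C : Type 1) [CStarAlgebra C] (u : SolGroup M b → C), IsGroupAlg u →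
          ¬ ∃ φ : A →⋆ₐ[ℂ] C, Function.Injective φ := by
  refine ⟨fun V W _ _ G H => ⟨_, _, _, isIsoAlg G H⟩, fun Γ _ => ⟨_, _, _, isGroupAlg Γ⟩,
    Vx, Vx, inferInstance, inferInstance, sqGraph true, sqGraph false,
    fun A _ p hp => ⟨iso_nontrivial hp, fun Γ _ C _ u hu => no_hom hp Γ C u hu, ?_⟩⟩
  rintro m n M b C _ u hu ⟨φ, _⟩
  exact (no_hom hp (SolGroup M b) C u hu).false φ

end Pool.Agent.Results.MP_3b70de_al.NoUnitalHom
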